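import Mathlib

set_option autoImplicit false

/-!
# Primitive recursive tests for systems of linear equations with a variable index
-/

namespace Pool.Agent.X231.DP

open Primrec

/-- entries `(i, (a, b), n)` -/
abbrev Ent (N : ℕ) : Type := Fin N × (ℕ × ℕ) × ℕ

theorem prim_sum {α β : Type} [Primcodable α] [Primcodable β] {g : α → β → ℕ} (hg : Primrec₂ g) :
    Primrec₂ fun (l : List α) (s : β) => (l.map fun e => g e s).sum := by
  have h := Primrec.list_foldr (f := fun p : List α × β => p.1) (g := fun _ => 0)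
    (h := fun (p : List α × β) (q : α × ℕ) => g q.1 p.2 + q.2) Primrec.fst (Primrec.const 0)
    (Primrec.nat_add.comp (hg.comp (fst.comp snd) (snd.comp fst)) (snd.comp snd)).to₂
  refine Primrec.of_eq h ?_
  rintro ⟨l, s⟩
  dsimp only
  induction l with
  | nil => rfl
  | cons a l ih => rw [List.foldr_cons, ih, List.map_cons, List.sum_cons]

theorem prim_fsum {α : Type} [Primcodable α] {σ : Type} (F : Finset σ) (g : σ → α → ℕ)
    (hg : ∀ s, Primrec (g s)) : Primrec fun a => ∑ s ∈ F, g s a := by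
  classical
  induction F using Finset.induction_on with
  | empty => simpa using Primrec.const (α := α) (0 : ℕ)
  | insert s F hs ih =>
    refine Primrec.of_eq (Primrec.nat_add.comp (hg s) ih) fun a => ?_
    rw [Finset.sum_insert hs]

theorem pred_fin {α : Type} [Primcodable α] : ∀ {m : ℕ} (p : Fin m → α → Prop),
    (∀ j, PrimrecPred (p j)) → PrimrecPred fun a => ∀ j, p j a
  | 0, p, _ => by
    have h : PrimrecPred fun _ : α => True := ⟨fun _ => instDecidableTrue, Primrec.const _⟩
    exact h.of_eq fun a => by simp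
  | m + 1, p, h => by
    have h1 := pred_fin (fun j : Fin m => p j.succ) fun j => h _
    refine ((h 0).and h1).of_eq fun a => ?_
    rw [Fin.forall_fin_succ]

theorem pred_mem {F : Finset ℕ} : PrimrecPred fun s : ℕ => s ∈ F := by
  classical
  induction F using Finset.induction_on with
  | empty =>
    have h : PrimrecPred fun _ : ℕ => False := ⟨fun _ => instDecidableFalse, Primrec.const _⟩
    exact h.of_eq fun a => by simp
  | insert s F hs ih =>
    have h1 : PrimrecPred fun a : ℕ => a = s := Primrec.eq.comp Primrec.id (Primrec.const s)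
    refine (h1.or ih).of_eq fun a => ?_
    rw [Finset.mem_insert]

variable {N : ℕ}

/-- positive part -/
def gp (w : ℕ → ℕ → ℕ) (A : Fin N → ℤ) (e : Ent N) (s : ℕ) : ℕ :=
  ((A e.1).toNat * e.2.1.1 + (-(A e.1)).toNat * e.2.1.2) * w e.2.2 s

/-- negative part -/
def gm (w : ℕ → ℕ → ℕ) (A : Fin N → ℤ) (e : Ent N) (s : ℕ) : ℕ :=
  ((A e.1).toNat * e.2.1.2 + (-(A e.1)).toNat * e.2.1.1) * w e.2.2 s

/-- `∑ (a - b) A_i w(n, s)` -/
def T (w : ℕ → ℕ → ℕ) (A : Fin N → ℤ) (s : ℕ) (l : List (Ent N)) : ℤ :=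
  (l.map fun e => ((e.2.1.1 : ℤ) - e.2.1.2) * A e.1 * w e.2.2 s).sum

theorem T_eq (w : ℕ → ℕ → ℕ) (A : Fin N → ℤ) (s : ℕ) (l : List (Ent N)) :
    T w A s l = ((l.map fun e => gp w A e s).sum : ℕ) - ((l.map fun e => gm w A e s).sum : ℕ) := by
  unfold T
  induction l with
  | nil => simp
  | cons e l ih =>
    rw [List.map_cons, List.sum_cons, ih, List.map_cons, List.map_cons, List.sum_cons, List.sum_cons]
    have h2 : ((e.2.1.1 : ℤ) - e.2.1.2) * A e.1 * w e.2.2 s =
        ((gp w A e s : ℕ) : ℤ) - ((gm w A e s : ℕ) : ℤ) := by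
      unfold gp gm
      have h := Int.toNat_sub_toNat_neg (A e.1)
      generalize (A e.1).toNat = x at h ⊢
      generalize (-(A e.1)).toNat = y at h ⊢
      rw [← h]
      push_cast
      ring
    rw [h2]
    push_cast
    ring


variable {w : ℕ → ℕ → ℕ} (hw : Primrec₂ w)

include hw in
theorem prim_gp (A : Fin N → ℤ) : Primrec₂ (gp w A) := by
  have h1 : Primrec fun p : Ent N × ℕ => (A p.1.1).toNat :=
    (Primrec.dom_finite fun i : Fin N => (A i).toNat).comp (fst.comp fst)
  have h2 : Primrec fun p : Ent N × ℕ => (-(A p.1.1)).toNat :=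
    (Primrec.dom_finite fun i : Fin N => (-(A i)).toNat).comp (fst.comp fst)
  have h3 : Primrec fun p : Ent N × ℕ => p.1.2.1.1 := fst.comp (fst.comp (snd.comp fst))
  have h4 : Primrec fun p : Ent N × ℕ => p.1.2.1.2 := snd.comp (fst.comp (snd.comp fst))
  have h5 : Primrec fun p : Ent N × ℕ => w p.1.2.2 p.2 := hw.comp (snd.comp (snd.comp fst)) snd
  exact Primrec.nat_mul.comp (Primrec.nat_add.comp (Primrec.nat_mul.comp h1 h3)
    (Primrec.nat_mul.comp h2 h4)) h5

include hw in
theorem prim_gm (A : Fin N → ℤ) : Primrec₂ (gm w A) := by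
  have h1 : Primrec fun p : Ent N × ℕ => (A p.1.1).toNat :=
    (Primrec.dom_finite fun i : Fin N => (A i).toNat).comp (fst.comp fst)
  have h2 : Primrec fun p : Ent N × ℕ => (-(A p.1.1)).toNat :=
    (Primrec.dom_finite fun i : Fin N => (-(A i)).toNat).comp (fst.comp fst)
  have h3 : Primrec fun p : Ent N × ℕ => p.1.2.1.1 := fst.comp (fst.comp (snd.comp fst))
  have h4 : Primrec fun p : Ent N × ℕ => p.1.2.1.2 := snd.comp (fst.comp (snd.comp fst))
  have h5 : Primrec fun p : Ent N × ℕ => w p.1.2.2 p.2 := hw.comp (snd.comp (snd.comp fst)) snd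
  exact Primrec.nat_mul.comp (Primrec.nat_add.comp (Primrec.nat_mul.comp h1 h4)
    (Primrec.nat_mul.comp h2 h3)) h5

include hw in
theorem pred_T (A : Fin N → ℤ) : PrimrecRel fun (s : ℕ) (l : List (Ent N)) => T w A s l = 0 := by
  have h : PrimrecPred fun p : ℕ × List (Ent N) =>
      (p.2.map fun e => gp w A e p.1).sum = (p.2.map fun e => gm w A e p.1).sum :=
    Primrec.eq.comp ((prim_sum (prim_gp hw A)).comp snd fst)
      ((prim_sum (prim_gm hw A)).comp snd fst)
  refine h.of_eq fun p => ?_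
  change _ ↔ T w A p.1 p.2 = 0
  rw [T_eq]
  constructor
  · intro h
    rw [h]
    ring
  · intro h
    have : (((p.2.map fun e => gp w A e p.1).sum : ℕ) : ℤ) =
      ((p.2.map fun e => gm w A e p.1).sum : ℕ) := by linarith
    exact_mod_cast this

include hw in
theorem pred_sumT (F : Finset ℕ) (B : ℕ → Fin N → ℤ) :
    PrimrecPred fun l : List (Ent N) => ∑ s ∈ F, T w (B s) s l = 0 := by
  have h : PrimrecPred fun l : List (Ent N) =>
      ∑ s ∈ F, (l.map fun e => gp w (B s) e s).sum = ∑ s ∈ F, (l.map fun e => gm w (B s) e s).sum :=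
    Primrec.eq.comp
      (prim_fsum F _ fun s => (prim_sum (prim_gp hw (B s))).comp Primrec.id (Primrec.const s))
      (prim_fsum F _ fun s => (prim_sum (prim_gm hw (B s))).comp Primrec.id (Primrec.const s))
  refine h.of_eq fun l => ?_
  have h1 : ∑ s ∈ F, T w (B s) s l = ((∑ s ∈ F, (l.map fun e => gp w (B s) e s).sum : ℕ) : ℤ) -
      ((∑ s ∈ F, (l.map fun e => gm w (B s) e s).sum : ℕ) : ℤ) := by
    push_cast
    rw [← Finset.sum_sub_distrib]
    exact Finset.sum_congr rfl fun s _ => by rw [T_eq]; push_cast; rfl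
  rw [h1]
  constructor
  · intro h
    rw [h]
    ring
  · intro h
    have : ((∑ s ∈ F, (l.map fun e => gp w (B s) e s).sum : ℕ) : ℤ) =
      ((∑ s ∈ F, (l.map fun e => gm w (B s) e s).sum : ℕ) : ℤ) := by linarith
    exact_mod_cast this

/-- a bound for the indices -/
def bd (l : List (Ent N)) : ℕ := (l.map fun e => e.2.2).sum + 1

theorem prim_bd : Primrec (bd : List (Ent N) → ℕ) := by
  have h : Primrec₂ fun (e : Ent N) (_ : ℕ) => e.2.2 := (snd.comp (snd.comp fst)).to₂
  exact Primrec.succ.comp ((prim_sum h).comp Primrec.id (Primrec.const 0))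

theorem T_zero (hb : ∀ n s, n < s → w n s = 0) (A : Fin N → ℤ) (l : List (Ent N)) (s : ℕ)
    (hs : bd l ≤ s) : T w A s l = 0 := by
  unfold T
  apply List.sum_eq_zero
  intro x hx
  obtain ⟨e, he, rfl⟩ := List.mem_map.1 hx
  have h1 : e.2.2 ≤ (l.map fun e => e.2.2).sum :=
    List.single_le_sum (fun _ _ => Nat.zero_le _) _ (List.mem_map.2 ⟨e, he, rfl⟩)
  rw [hb _ _ (by unfold bd at hs; omega)]
  simp

include hw in
/-- **The test.** -/
theorem pred_test (hb : ∀ n s, n < s → w n s = 0) (F : Finset ℕ) {m m' : ℕ}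
    (A : Fin m → Fin N → ℤ) (B : Fin m' → ℕ → Fin N → ℤ) :
    PrimrecPred fun l : List (Ent N) => (∀ s ∉ F, ∀ j, T w (A j) s l = 0) ∧
      ∀ j, ∑ s ∈ F, T w (B j s) s l = 0 := by
  have h1 : PrimrecRel fun (s : ℕ) (l : List (Ent N)) => s ∈ F ∨ ∀ j, T w (A j) s l = 0 :=
    PrimrecPred.or (pred_mem.comp fst) (pred_fin _ fun j => pred_T hw (A j))
  have h2 : PrimrecPred fun l : List (Ent N) => ∀ s ∈ List.range (bd l),
      s ∈ F ∨ ∀ j, T w (A j) s l = 0 :=
    (h1.forall_mem_list).comp (list_range.comp prim_bd) Primrec.id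
  have h3 : PrimrecPred fun l : List (Ent N) => ∀ j, ∑ s ∈ F, T w (B j s) s l = 0 :=
    pred_fin _ fun j => pred_sumT hw F (B j)
  refine (h2.and h3).of_eq fun l => ?_
  refine and_congr_left fun _ => ?_
  constructor
  · intro h s hs j
    rcases lt_or_ge s (bd l) with hlt | hge
    · exact (h s (List.mem_range.2 hlt)).resolve_left hs j
    · exact T_zero hb (A j) l s hge
  · intro h s _
    by_cases hs : s ∈ F
    · exact Or.inl hs
    · exact Or.inr (h s hs)

end Pool.Agent.X231.DP
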