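import Pool.Agent.X231.DP.Main

set_option autoImplicit false

/-!
# Equality of sums of products of fixed numbers and logarithms is decidable: rational coefficients
-/

namespace Pool.Agent.X231.DP

open Module Finset Primrec

variable {N : ℕ}

/-- terms `(i, a, b, d, n)` -/
abbrev Tm (N : ℕ) : Type := Fin N × ℕ × ℕ × ℕ × ℕ

/-- the value of a term -/
noncomputable def tv (v : Fin N → ℂ) (μ : ℕ → ℂ) (t : Tm N) : ℂ :=
  ((t.2.1 : ℂ) - t.2.2.1) / ((t.2.2.2.1 : ℂ) + 1) * v t.1 * μ t.2.2.2.2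

/-- multiplication by `D` -/
def conv (D : ℕ) (t : Tm N) : Ent N :=
  (t.1, (t.2.1 * (D / (t.2.2.2.1 + 1)), t.2.2.1 * (D / (t.2.2.2.1 + 1))), t.2.2.2.2)

/-- the common denominator -/
def den (l : List (Tm N)) : ℕ := (l.map fun t => t.2.2.2.1 + 1).prod

theorem prim_den : Primrec (den : List (Tm N) → ℕ) := by
  have h := Primrec.list_foldr (f := fun l : List (Tm N) => l) (g := fun _ => 1)
    (h := fun (_ : List (Tm N)) (q : Tm N × ℕ) => (q.1.2.2.2.1 + 1) * q.2) Primrec.id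
    (Primrec.const 1) (Primrec.nat_mul.comp (Primrec.succ.comp
      (fst.comp (snd.comp (snd.comp (snd.comp (fst.comp snd)))))) (snd.comp snd)).to₂
  refine Primrec.of_eq h ?_
  intro l
  unfold den
  induction l with
  | nil => rfl
  | cons a l ih => rw [List.foldr_cons, ih, List.map_cons, List.prod_cons]

theorem prim_conv : Primrec₂ (conv : ℕ → Tm N → Ent N) := by
  have hd : Primrec fun p : ℕ × Tm N => p.1 / (p.2.2.2.2.1 + 1) :=
    Primrec.nat_div.comp fst (Primrec.succ.comp (fst.comp (snd.comp (snd.comp (snd.comp snd)))))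
  have h1 : Primrec fun p : ℕ × Tm N => p.2.1 := fst.comp snd
  have h2 : Primrec fun p : ℕ × Tm N => p.2.2.1 * (p.1 / (p.2.2.2.2.1 + 1)) :=
    Primrec.nat_mul.comp (fst.comp (snd.comp snd)) hd
  have h3 : Primrec fun p : ℕ × Tm N => p.2.2.2.1 * (p.1 / (p.2.2.2.2.1 + 1)) :=
    Primrec.nat_mul.comp (fst.comp (snd.comp (snd.comp snd))) hd
  have h4 : Primrec fun p : ℕ × Tm N => p.2.2.2.2.2 :=
    snd.comp (snd.comp (snd.comp (snd.comp snd)))
  exact Primrec.pair h1 (Primrec.pair (Primrec.pair h2 h3) h4)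

theorem conv_sum (v : Fin N → ℂ) (w : ℕ → ℕ → ℕ) (L : ℕ → ℂ) (D : ℕ) (l : List (Tm N))
    (h : ∀ t ∈ l, t.2.2.2.1 + 1 ∣ D) :
    ((l.map (conv D)).map (vl w L v)).sum = D * (l.map (tv v (ell w L))).sum := by
  induction l with
  | nil => simp
  | cons t l ih =>
    rw [List.map_cons, List.map_cons, List.sum_cons, ih fun t ht => h t (List.mem_cons_of_mem _ ht),
      List.map_cons, List.sum_cons, mul_add]
    congr 1
    obtain ⟨k, hk⟩ := h t (List.mem_cons_self)
    unfold vl tv conv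
    dsimp only
    rw [hk, Nat.mul_div_cancel_left _ (Nat.succ_pos _)]
    have h0 : ((t.2.2.2.1 : ℂ) + 1) ≠ 0 := by exact_mod_cast Nat.succ_ne_zero t.2.2.2.1
    push_cast
    field_simp

theorem den_dvd (l : List (Tm N)) : ∀ t ∈ l, t.2.2.2.1 + 1 ∣ den l := fun t ht =>
  List.dvd_prod (List.mem_map.2 ⟨t, ht, rfl⟩)

theorem den_ne (l : List (Tm N)) : den l ≠ 0 := by
  unfold den
  rw [ne_eq, List.prod_eq_zero_iff]
  intro h
  obtain ⟨t, _, ht⟩ := List.mem_map.1 h
  exact Nat.succ_ne_zero _ ht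

/-- exchange of `a` and `b` -/
def sw (t : Tm N) : Tm N := (t.1, t.2.2.1, t.2.1, t.2.2.2)

theorem prim_sw : Primrec (sw : Tm N → Tm N) :=
  Primrec.pair fst (Primrec.pair (fst.comp (snd.comp snd)) (Primrec.pair (fst.comp snd)
    (snd.comp (snd.comp snd))))

theorem sw_sum (v : Fin N → ℂ) (μ : ℕ → ℂ) (l : List (Tm N)) :
    ((l.map sw).map (tv v μ)).sum = -(l.map (tv v μ)).sum := by
  induction l with
  | nil => simp
  | cons t l ih =>
    rw [List.map_cons, List.map_cons, List.sum_cons, ih, List.map_cons, List.sum_cons, neg_add]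
    congr 1
    unfold tv sw
    dsimp only
    ring

/-- Zero test for lists of terms. -/
theorem decidable_zero' (w : ℕ → ℕ → ℕ) (L : ℕ → ℂ) (v : Fin N → ℂ) (hw : Primrec₂ w)
    (hb : ∀ n s, n < s → w n s = 0) {S : ℕ → Prop} (hS : ∀ n s, w n s ≠ 0 → S s)
    (hH : ∃ F : Finset ℕ, ∀ c : ℕ →₀ (Fin N → ℚ), (∀ s, c s ≠ 0 → S s) → ev v L c = 0 →
      ∀ s ∉ F, dot v (c s) = 0) :
    PrimrecPred fun l : List (Tm N) => (l.map (tv v (ell w L))).sum = 0 := by
  have h1 := decidable_zero w L v hw hb hS hH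
  have h2 : Primrec fun l : List (Tm N) => l.map (conv (den l)) :=
    Primrec.list_map Primrec.id (prim_conv.comp (prim_den.comp fst) snd).to₂
  refine (h1.comp h2).of_eq fun l => ?_
  rw [conv_sum v w L (den l) l (den_dvd l)]
  constructor
  · intro h
    exact (mul_eq_zero.1 h).resolve_left (by exact_mod_cast den_ne l)
  · intro h
    rw [h, mul_zero]

/-- Equality test for lists of terms. -/
theorem decidable_eq (w : ℕ → ℕ → ℕ) (L : ℕ → ℂ) (v : Fin N → ℂ) (hw : Primrec₂ w)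
    (hb : ∀ n s, n < s → w n s = 0) {S : ℕ → Prop} (hS : ∀ n s, w n s ≠ 0 → S s)
    (hH : ∃ F : Finset ℕ, ∀ c : ℕ →₀ (Fin N → ℚ), (∀ s, c s ≠ 0 → S s) → ev v L c = 0 →
      ∀ s ∉ F, dot v (c s) = 0) :
    PrimrecPred fun p : List (Tm N) × List (Tm N) =>
      (p.1.map (tv v (ell w L))).sum = (p.2.map (tv v (ell w L))).sum := by
  have h1 := decidable_zero' w L v hw hb hS hH
  have h2 : Primrec fun p : List (Tm N) × List (Tm N) => p.1 ++ p.2.map sw :=
    Primrec.list_append.comp fst (Primrec.list_map snd (prim_sw.comp snd).to₂)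
  refine (h1.comp h2).of_eq fun p => ?_
  rw [List.map_append, List.sum_append, sw_sum]
  constructor
  · intro h
    linear_combination h
  · intro h
    rw [h]
    ring

/-- transport of `exists_support` to indices in `ℕ` -/
theorem support_nat {ι : Type} (v : Fin N → ℂ) (l : ι → ℂ)
    (hl : ∀ i, IsAlgebraic ℚ (Complex.exp (l i))) (hli : LinearIndependent ℚ l)
    (τ : Option ι → ℕ) (hτ : Function.Injective τ) (L : ℕ → ℂ)
    (hL : ∀ o : Option ι, L (τ o) = o.elim 1 l) :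
    ∃ F : Finset ℕ, ∀ c : ℕ →₀ (Fin N → ℚ), (∀ s, c s ≠ 0 → s ∈ Set.range τ) → ev v L c = 0 →
      ∀ s ∉ F, dot v (c s) = 0 := by
  classical
  obtain ⟨F, hF⟩ := exists_support v l hl hli
  refine ⟨F.image τ, fun c hc h0 s hs => ?_⟩
  by_cases hcs : c s = 0
  · rw [hcs, map_zero]
  obtain ⟨o, rfl⟩ := hc s hcs
  have hc' : ((c.support : Set ℕ)) ⊆ Set.range τ := fun s hs =>
    hc s (Finsupp.mem_support_iff.1 hs)
  have h1 := Finsupp.mapDomain_comapDomain τ hτ c hc'
  have h2 : ev v (fun o : Option ι => (o.elim 1 l : ℂ)) (c.comapDomain τ hτ.injOn) = 0 := by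
    rw [← h0]
    conv_rhs => rw [← h1]
    rw [ev_apply, ev_apply, Finsupp.sum_mapDomain_index (by intro i; rw [map_zero, zero_mul])
      (by intro i x y; rw [map_add, add_mul])]
    refine Finsupp.sum_congr fun o _ => ?_
    rw [hL]
  have h3 := hF _ h2 o (fun ho => hs (Finset.mem_image.2 ⟨o, ho, rfl⟩))
  rwa [Finsupp.comapDomain_apply] at h3

/-- **General sequences.** -/
theorem seq (v : Fin N → ℂ) (l : ℕ → ℂ) (hl : ∀ s, IsAlgebraic ℚ (Complex.exp (l s)))
    (hli : LinearIndependent ℚ l) (w : ℕ → ℕ → ℕ) (hw : Primrec₂ w)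
    (hb : ∀ n s, n < s → w n s = 0) :
    PrimrecPred fun p : List (Tm N) × List (Tm N) =>
      (p.1.map (tv v fun n => (w n 0 : ℂ) + ∑ s ∈ range n, (w n (s + 1) : ℂ) * l s)).sum =
      (p.2.map (tv v fun n => (w n 0 : ℂ) + ∑ s ∈ range n, (w n (s + 1) : ℂ) * l s)).sum := by
  let L : ℕ → ℂ := fun s => Nat.casesOn s 1 l
  have hell : ell w L = fun n => (w n 0 : ℂ) + ∑ s ∈ range n, (w n (s + 1) : ℂ) * l s := by
    funext n
    unfold ell
    rw [Finset.sum_range_succ', add_comm]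
    simp [L]
  rw [← hell]
  refine decidable_eq w L v hw hb (S := fun s => s ∈ Set.range (fun o : Option ℕ => o.elim 0 Nat.succ))
    (fun n s _ => ?_) ?_
  · cases s with
    | zero => exact ⟨none, rfl⟩
    | succ s => exact ⟨some s, rfl⟩
  · exact support_nat v l hl hli (fun o : Option ℕ => o.elim 0 Nat.succ) (by
      intro a b hab
      cases a <;> cases b <;> simp_all) L (by
      intro o
      cases o <;> rfl)

end Pool.Agent.X231.DP
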