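import Pool.Agent.X231.DP.Sup
import Pool.Agent.X231.DP.Comp

set_option autoImplicit false

/-!
# Equality of sums of products of fixed numbers and logarithms is decidable
-/

namespace Pool.Agent.X231.DP

open Module Finset

variable {N : ℕ} (w : ℕ → ℕ → ℕ) (L : ℕ → ℂ) (v : Fin N → ℂ)

/-- `ℓ(n) = ∑_{s ≤ n} w(n, s) L_s` -/
noncomputable def ell (n : ℕ) : ℂ := ∑ s ∈ range (n + 1), (w n s : ℂ) * L s

/-- the coefficients of an entry -/
noncomputable def cf (e : Ent N) : ℕ →₀ (Fin N → ℚ) :=
  ∑ s ∈ range (e.2.2 + 1), Finsupp.single s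
    (Pi.single e.1 (((e.2.1.1 : ℚ) - e.2.1.2) * w e.2.2 s))

/-- the value of an entry -/
noncomputable def vl (e : Ent N) : ℂ := ((e.2.1.1 : ℂ) - e.2.1.2) * v e.1 * ell w L e.2.2

theorem dot_single (i : Fin N) (q : ℚ) : dot v (Pi.single i q) = q * v i := by
  rw [dot_apply, Finset.sum_eq_single i]
  · rw [Pi.single_eq_same]
  · intro j _ hj
    rw [Pi.single_eq_of_ne hj]
    simp
  · intro h
    exact absurd (Finset.mem_univ _) h

theorem ev_cf (e : Ent N) : ev v L (cf w e) = vl w L v e := by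
  unfold cf vl ell
  rw [map_sum, Finset.mul_sum]
  refine Finset.sum_congr rfl fun s _ => ?_
  rw [ev_apply, Finsupp.sum_single_index (by rw [map_zero, zero_mul]), dot_single]
  push_cast
  ring

theorem cf_apply (hb : ∀ n s, n < s → w n s = 0) (e : Ent N) (s : ℕ) :
    cf w e s = Pi.single e.1 (((e.2.1.1 : ℚ) - e.2.1.2) * w e.2.2 s) := by
  unfold cf
  rw [Finsupp.finsetSum_apply]
  by_cases h : s ∈ range (e.2.2 + 1)
  · rw [Finset.sum_eq_single s]
    · rw [Finsupp.single_eq_same]
    · intro t _ ht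
      rw [Finsupp.single_eq_of_ne (Ne.symm ht)]
    · intro h'
      exact absurd h h'
  · rw [Finset.sum_eq_zero]
    · rw [hb _ _ (by rw [Finset.mem_range] at h; omega)]
      simp
    · intro t ht
      rw [Finsupp.single_eq_of_ne]
      rintro rfl
      exact h ht

/-- the coefficients of a list -/
noncomputable def cl (l : List (Ent N)) : ℕ →₀ (Fin N → ℚ) := (l.map (cf w)).sum

theorem ev_cl (l : List (Ent N)) : ev v L (cl w l) = (l.map (vl w L v)).sum := by
  unfold cl
  rw [map_list_sum, List.map_map]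
  congr 1
  refine List.map_congr_left fun e _ => ?_
  exact ev_cf w L v e

theorem cl_T (hb : ∀ n s, n < s → w n s = 0) (A : Fin N → ℤ) (s : ℕ) (l : List (Ent N)) :
    ∑ k, (A k : ℚ) * cl w l s k = (T w A s l : ℤ) := by
  unfold cl T
  induction l with
  | nil => simp
  | cons e l ih =>
    rw [List.map_cons, List.sum_cons, List.map_cons, List.sum_cons]
    push_cast
    push_cast at ih
    rw [← ih]
    have h1 : ∑ k, (A k : ℚ) * cf w e s k = ((e.2.1.1 : ℚ) - e.2.1.2) * A e.1 * w e.2.2 s := by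
      rw [cf_apply w hb, Finset.sum_eq_single e.1]
      · rw [Pi.single_eq_same]
        ring
      · intro j _ hj
        rw [Pi.single_eq_of_ne hj, mul_zero]
      · intro h
        exact absurd (Finset.mem_univ _) h
    rw [← h1, ← Finset.sum_add_distrib]
    refine Finset.sum_congr rfl fun k _ => ?_
    simp only [Pi.add_apply]
    ring

theorem cl_supp (hb : ∀ n s, n < s → w n s = 0) {S : ℕ → Prop} (hS : ∀ n s, w n s ≠ 0 → S s)
    (l : List (Ent N)) (s : ℕ) (hs : cl w l s ≠ 0) : S s := by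
  by_contra hc
  apply hs
  unfold cl
  induction l with
  | nil => simp
  | cons e l ih =>
    rw [List.map_cons, List.sum_cons, Finsupp.add_apply]
    have h1 : cf w e s = 0 := by
      rw [cf_apply w hb]
      have : w e.2.2 s = 0 := by
        by_contra h
        exact hc (hS _ _ h)
      rw [this]
      simp
    rw [h1, zero_add]
    by_contra h
    exact h (ih h)

/-- **Main theorem.** -/
theorem decidable_zero (hw : Primrec₂ w) (hb : ∀ n s, n < s → w n s = 0) {S : ℕ → Prop}
    (hS : ∀ n s, w n s ≠ 0 → S s)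
    (hH : ∃ F : Finset ℕ, ∀ c : ℕ →₀ (Fin N → ℚ), (∀ s, c s ≠ 0 → S s) → ev v L c = 0 →
      ∀ s ∉ F, dot v (c s) = 0) :
    PrimrecPred fun l : List (Ent N) => (l.map (vl w L v)).sum = 0 := by
  classical
  obtain ⟨F, hF⟩ := hH
  obtain ⟨m, A, hA⟩ := equations (dot v)
  -- the part in `F`
  let f : (F × Fin N → ℚ) →ₗ[ℚ] ℂ := ∑ s : F, (LinearMap.mulRight ℚ (L s)) ∘ₗ (dot v) ∘ₗ
    (LinearMap.pi fun k : Fin N => LinearMap.proj (s, k))
  have hf : ∀ x, f x = ∑ s : F, dot v (fun k => x (s, k)) * L s := by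
    intro x
    simp only [f, LinearMap.sum_apply, LinearMap.comp_apply]
    rfl
  obtain ⟨m', B, hB⟩ := equations f
  let B' : Fin m' → ℕ → Fin N → ℤ := fun j s k => if h : s ∈ F then B j (⟨s, h⟩, k) else 0
  refine (pred_test hw hb F A B').of_eq fun l => ?_
  rw [← ev_cl]
  -- the first conditions
  have h1 : (∀ s ∉ F, ∀ j, T w (A j) s l = 0) ↔ ∀ s ∉ F, dot v (cl w l s) = 0 := by
    refine forall_congr' fun s => forall_congr' fun _ => ?_
    rw [hA]
    refine forall_congr' fun j => ?_
    rw [cl_T w hb]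
    exact_mod_cast Iff.rfl
  have h2 : (∀ j, ∑ s ∈ F, T w (B' j s) s l = 0) ↔ ∑ s ∈ F, dot v (cl w l s) * L s = 0 := by
    have h3 : ∑ s ∈ F, dot v (cl w l s) * L s = f (fun q => cl w l q.1 q.2) := by
      rw [hf, ← Finset.sum_coe_sort F (fun s => dot v (cl w l s) * L s)]
    rw [h3, hB]
    refine forall_congr' fun j => ?_
    have h4 : ∑ q : F × Fin N, (B j q : ℚ) * cl w l q.1 q.2 =
        ((∑ s ∈ F, T w (B' j s) s l : ℤ) : ℚ) := by
      rw [Fintype.sum_prod_type, Int.cast_sum, ← Finset.sum_coe_sort F]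
      refine Finset.sum_congr rfl fun s _ => ?_
      rw [← cl_T w hb]
      refine Finset.sum_congr rfl fun k _ => ?_
      simp only [B', s.2, dif_pos]
    rw [h4]
    exact_mod_cast Iff.rfl
  rw [h1, h2]
  -- the value
  have h5 : (∀ s ∉ F, dot v (cl w l s) = 0) → ev v L (cl w l) = ∑ s ∈ F, dot v (cl w l s) * L s := by
    intro h
    rw [ev_apply]
    unfold Finsupp.sum
    have h6 : ∑ s ∈ (cl w l).support ∪ F, dot v (cl w l s) * L s =
        ∑ s ∈ (cl w l).support, dot v (cl w l s) * L s := by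
      symm
      apply Finset.sum_subset Finset.subset_union_left
      intro s _ hs
      rw [Finsupp.notMem_support_iff.1 hs, map_zero, zero_mul]
    rw [← h6]
    symm
    apply Finset.sum_subset Finset.subset_union_right
    intro s _ hs
    rw [h s hs, zero_mul]
  constructor
  · rintro ⟨h, h'⟩
    rw [h5 h, h']
  · intro h
    have h7 := hF (cl w l) (cl_supp w hb hS l) h
    exact ⟨h7, (h5 h7).symm.trans h⟩

end Pool.Agent.X231.DP
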