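import Pool.Agent.X231.DP.Fin

set_option autoImplicit false

/-!
# Equality of sums of products of fixed numbers and logarithms is decidable: integers
-/

namespace Pool.Agent.X231.DP

open Module Finset Primrec

variable {N : ℕ}

/-- the number of `k < n` with `s ^ (k + 1)` dividing `n` -/
def cnt (n s : ℕ) : ℕ := ((List.range n).map fun k => if n % s ^ (k + 1) = 0 then 1 else 0).sum

theorem prim_cnt : Primrec₂ cnt := by
  have hpow : Primrec₂ (fun m n : ℕ => m ^ n) := Primrec₂.unpaired'.1 Nat.Primrec.pow
  have h1 : Primrec₂ fun (k : ℕ) (p : ℕ × ℕ) => if p.1 % p.2 ^ (k + 1) = 0 then 1 else 0 := by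
    refine Primrec.ite (Primrec.eq.comp (Primrec.nat_mod.comp (fst.comp snd)
      (hpow.comp (snd.comp snd) (Primrec.succ.comp fst))) (Primrec.const 0)) (Primrec.const 1)
      (Primrec.const 0)
  exact (prim_sum h1).comp (list_range.comp fst) Primrec.id

theorem cnt_eq {n p : ℕ} (hp : p.Prime) (hn : n ≠ 0) : cnt n p = n.factorization p := by
  unfold cnt
  rw [← List.sum_toFinset _ List.nodup_range, List.toFinset_range, ← Finset.sum_filter]
  simp only [Finset.sum_const, smul_eq_mul, mul_one]
  have h1 : (range n).filter (fun k => n % p ^ (k + 1) = 0) = range (n.factorization p) := by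
    ext k
    rw [Finset.mem_filter, Finset.mem_range, Finset.mem_range, ← Nat.dvd_iff_mod_eq_zero,
      hp.pow_dvd_iff_le_factorization hn]
    have := Nat.factorization_lt p hn
    omega
  rw [h1, Finset.card_range]

theorem pred_prime : PrimrecPred Nat.Prime := by
  have h1 : PrimrecRel fun (m s : ℕ) => ¬ (s % m = 0) ∨ m = 1 :=
    PrimrecPred.or (PrimrecPred.not (Primrec.eq.comp (Primrec.nat_mod.comp snd fst)
      (Primrec.const 0))) (Primrec.eq.comp fst (Primrec.const 1))
  have h2 : PrimrecPred fun s : ℕ => ∀ m ∈ List.range s, ¬ (s % m = 0) ∨ m = 1 :=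
    (h1.forall_mem_list).comp list_range Primrec.id
  have h3 : PrimrecPred fun s : ℕ => 2 ≤ s := Primrec.nat_le.comp (Primrec.const 2) Primrec.id
  refine (h3.and h2).of_eq fun s => ?_
  rw [Nat.prime_def_lt]
  refine and_congr_right fun _ => ?_
  constructor
  · intro h m hm hd
    exact (h m (List.mem_range.2 hm)).resolve_left (not_not.2 (Nat.dvd_iff_mod_eq_zero.1 hd))
  · intro h m hm
    by_cases hd : s % m = 0
    · exact Or.inr (h m (List.mem_range.1 hm) (Nat.dvd_iff_mod_eq_zero.2 hd))
    · exact Or.inl hd

open Classical in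
/-- the exponents -/
noncomputable def wp (n s : ℕ) : ℕ :=
  if s = 0 then (if n = 0 then 1 else 0) else if s.Prime then cnt n s else 0

theorem prim_wp : Primrec₂ wp := by
  classical
  refine Primrec.of_eq (Primrec.ite (Primrec.eq.comp snd (Primrec.const 0))
    (Primrec.ite (Primrec.eq.comp fst (Primrec.const 0)) (Primrec.const 1) (Primrec.const 0))
    (Primrec.ite (pred_prime.comp snd) prim_cnt (Primrec.const 0))) ?_
  rintro ⟨n, s⟩
  unfold wp
  dsimp only

theorem wp_bd (n s : ℕ) (h : n < s) : wp n s = 0 := by
  unfold wp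
  rw [if_neg (by omega)]
  split_ifs with hp
  · rcases Nat.eq_zero_or_pos n with rfl | hn
    · rfl
    · rw [cnt_eq hp hn.ne']
      exact Nat.factorization_eq_zero_of_lt h
  · rfl

theorem wp_supp (n s : ℕ) (h : wp n s ≠ 0) : s = 0 ∨ s.Prime := by
  by_contra hc
  push Not at hc
  apply h
  unfold wp
  rw [if_neg hc.1, if_neg hc.2]

/-- `1` for `n = 0`, `log n` for `n ≥ 1` -/
noncomputable def logs (n : ℕ) : ℂ := if n = 0 then 1 else ((Real.log n : ℝ) : ℂ)

theorem ell_wp : ell wp logs = logs := by
  funext n
  unfold ell
  rw [Finset.sum_range_succ']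
  rcases Nat.eq_zero_or_pos n with rfl | hn
  · simp [wp, logs]
  · have h1 : wp n 0 = 0 := by
      unfold wp
      rw [if_pos rfl, if_neg hn.ne']
    rw [h1, Nat.cast_zero, zero_mul, add_zero]
    have h2 : logs n = ((Real.log n : ℝ) : ℂ) := by
      unfold logs
      rw [if_neg hn.ne']
    rw [h2, Real.log_nat_eq_sum_factorization]
    unfold Finsupp.sum
    push_cast
    have h3 : ∑ s ∈ range n, (wp n (s + 1) : ℂ) * logs (s + 1) =
        ∑ s ∈ (range n).map ⟨Nat.succ, Nat.succ_injective⟩, (wp n s : ℂ) * logs s := by
      rw [Finset.sum_map]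
      rfl
    rw [h3]
    symm
    have h4 : ∀ p ∈ n.factorization.support, p.Prime ∧ p ≤ n := by
      intro p hp
      rw [Nat.support_factorization] at hp
      exact ⟨Nat.prime_of_mem_primeFactors hp,
        Nat.le_of_dvd hn (Nat.dvd_of_mem_primeFactors hp)⟩
    rw [Finset.sum_congr rfl (g := fun s => (wp n s : ℂ) * logs s)]
    · apply Finset.sum_subset
      · intro p hp
        obtain ⟨h5, h6⟩ := h4 p hp
        rw [Finset.mem_map]
        exact ⟨p - 1, Finset.mem_range.2 (by have := h5.pos; omega), by
          have := h5.pos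
          simp only [Function.Embedding.coeFn_mk]
          omega⟩
      · intro s _ hs
        have h5 : wp n s = 0 := by
          unfold wp
          split_ifs with ha hb hb
          · omega
          · rfl
          · rw [cnt_eq hb hn.ne']
            exact Finsupp.notMem_support_iff.1 hs
          · rfl
        rw [h5, Nat.cast_zero, zero_mul]
    · intro p hp
      obtain ⟨h5, h6⟩ := h4 p hp
      have h7 : wp n p = n.factorization p := by
        unfold wp
        rw [if_neg h5.ne_zero, if_pos h5, cnt_eq h5 hn.ne']
      have h8 : logs p = ((Real.log p : ℝ) : ℂ) := by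
        unfold logs
        rw [if_neg h5.ne_zero]
      rw [h7, h8]
      push_cast
      rfl

/-- **Integers.** -/
theorem ints (v : Fin N → ℂ) :
    PrimrecPred fun p : List (Tm N) × List (Tm N) =>
      (p.1.map (tv v logs)).sum = (p.2.map (tv v logs)).sum := by
  have h := decidable_eq wp logs v prim_wp wp_bd (S := fun s => s = 0 ∨ s.Prime) wp_supp (by
    obtain ⟨F, hF⟩ := support_nat v (fun p : Nat.Primes => ((Real.log (p : ℕ) : ℝ) : ℂ))
      Pool.Agent.W254.HP.log_prime_alg Pool.Agent.W254.HP.log_primes_indep
      (fun o : Option Nat.Primes => o.elim 0 (fun p => (p : ℕ))) (by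
        intro a b hab
        cases a with
        | none =>
          cases b with
          | none => rfl
          | some q => exact absurd hab.symm q.2.ne_zero
        | some p =>
          cases b with
          | none => exact absurd hab p.2.ne_zero
          | some q => exact congrArg some (Subtype.ext hab)) logs (by
        intro o
        cases o with
        | none => simp [logs]
        | some p =>
          change logs (p : ℕ) = _
          unfold logs
          rw [if_neg p.2.ne_zero]
          rfl)
    refine ⟨F, fun c hc => hF c fun s hs => ?_⟩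
    rcases hc s hs with rfl | hp
    · exact ⟨none, rfl⟩
    · exact ⟨some ⟨s, hp⟩, rfl⟩)
  rwa [ell_wp] at h

end Pool.Agent.X231.DP
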