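import Pool.Agent.W254.HP.Opt
import Pool.Agent.W254.HP.Gen

set_option autoImplicit false

/-!
# Rational relations between products of fixed numbers and logarithms: supports
-/

namespace Pool.Agent.X231.DP

open Module Finset
open Pool.Agent.H301R2.SSE (QB mem_QB Lt)
open Pool.Agent.W254.HP

variable {N : ℕ} {ι : Type}

/-- `∑ x_i v_i` -/
noncomputable def dot (v : Fin N → ℂ) : (Fin N → ℚ) →ₗ[ℚ] ℂ :=
  ∑ i, (LinearMap.toSpanSingleton ℚ ℂ (v i)) ∘ₗ LinearMap.proj i

theorem dot_apply (v : Fin N → ℂ) (x : Fin N → ℚ) : dot v x = ∑ i, (x i : ℂ) * v i := by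
  unfold dot
  simp [LinearMap.sum_apply, Algebra.smul_def]

/-- `∑_o (∑_i c_(o,i) v_i) l_o` -/
noncomputable def ev (v : Fin N → ℂ) (l : ι → ℂ) : (ι →₀ (Fin N → ℚ)) →ₗ[ℚ] ℂ :=
  Finsupp.lsum ℚ fun o => (LinearMap.mulRight ℚ (l o)) ∘ₗ dot v

theorem ev_apply (v : Fin N → ℂ) (l : ι → ℂ) (c : ι →₀ (Fin N → ℚ)) :
    ev v l c = c.sum fun o x => dot v x * l o := by
  unfold ev
  rw [Finsupp.lsum_apply]
  rfl

/-- the linear polynomial with the coefficients `x` -/
noncomputable def lp : (Fin N → ℚ) → MvPolynomial (Fin N) QB := fun x =>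
  ∑ i, MvPolynomial.C (algebraMap ℚ QB (x i)) * MvPolynomial.X i

theorem lp_zero : lp (0 : Fin N → ℚ) = 0 := by
  simp [lp]

theorem lp_eval (v : Fin N → ℂ) (x : Fin N → ℚ) : MvPolynomial.aeval v (lp x) = dot v x := by
  unfold lp
  rw [dot_apply, map_sum]
  refine Finset.sum_congr rfl fun i _ => ?_
  rw [map_mul, MvPolynomial.aeval_C, MvPolynomial.aeval_X]
  congr 1

theorem lp_deg (x : Fin N → ℚ) : ∀ m ∈ (lp x).support, ∀ i, m i ≤ 1 := by
  intro m hm i
  have h1 : (lp x).totalDegree ≤ 1 := by
    unfold lp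
    refine MvPolynomial.totalDegree_finsetSum_le fun j _ => ?_
    refine (MvPolynomial.totalDegree_mul _ _).trans ?_
    rw [MvPolynomial.totalDegree_C, MvPolynomial.totalDegree_X]
  have h2 := MvPolynomial.le_totalDegree hm
  have h3 : m i ≤ m.sum fun _ e => e := by
    by_cases hi : m i = 0
    · rw [hi]; exact Nat.zero_le _
    · exact Finset.single_le_sum (f := fun j => m j) (fun _ _ => Nat.zero_le _)
        (Finsupp.mem_support_iff.2 hi)
  omega

theorem fin_range {k V A B : Type} [Field k] [AddCommGroup V] [Module k V] [AddCommGroup A]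
    [Module k A] [AddCommGroup B] [Module k B] (f : V →ₗ[k] A) (g : V →ₗ[k] B)
    [Module.Finite k B] (h : LinearMap.ker g ≤ LinearMap.ker f) :
    Module.Finite k (LinearMap.range f) := by
  have h1 : Module.Finite k (LinearMap.range g) := inferInstance
  have h2 : Module.Finite k (V ⧸ LinearMap.ker g) := Module.Finite.equiv g.quotKerEquivRange.symm
  have h3 : Module.Finite k (V ⧸ LinearMap.ker f) :=
    Module.Finite.of_surjective (Submodule.factor h) (Submodule.factor_surjective h)
  exact Module.Finite.equiv f.quotKerEquivRange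

/-- A space of finitely supported functions whose elements are determined by finitely many linear
maps has a common finite support. -/
theorem common_support {A B : Type} [AddCommGroup A] [Module ℚ A] [AddCommGroup B] [Module ℚ B]
    [Module.Finite ℚ B] {σ : Type} (f : A →ₗ[ℚ] (σ →₀ ℂ)) (g : A →ₗ[ℚ] B)
    (h : LinearMap.ker g ≤ LinearMap.ker f) : ∃ F : Finset σ, ∀ a, ∀ o ∉ F, f a o = 0 := by
  classical
  have hfin : Module.Finite ℚ (LinearMap.range f) := fin_range f g h
  obtain ⟨S, hS⟩ := (Module.Finite.iff_fg.1 hfin)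
  refine ⟨S.biUnion fun x => x.support, fun a o ho => ?_⟩
  have h1 : f a ∈ Submodule.span ℚ (S : Set (σ →₀ ℂ)) := by
    rw [hS]; exact LinearMap.mem_range_self f _
  have h2 : ∀ x ∈ Submodule.span ℚ (S : Set (σ →₀ ℂ)), x o = 0 := by
    intro x hx
    induction hx using Submodule.span_induction with
    | mem y hy =>
      by_contra hne
      exact ho (Finset.mem_biUnion.2 ⟨y, hy, Finsupp.mem_support_iff.2 hne⟩)
    | zero => rfl
    | add y z _ _ h1 h2 => rw [Finsupp.add_apply, h1, h2, add_zero]
    | smul a y _ h1 => rw [Finsupp.smul_apply, h1, smul_zero]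
  exact h2 _ h1

theorem ev_option (v : Fin N → ℂ) (l : ι → ℂ) (c : Option ι →₀ (Fin N → ℚ)) :
    ev v (fun o : Option ι => (o.elim 1 l : ℂ)) c =
      dot v (c none) + c.some.sum fun s x => dot v x * l s := by
  rw [ev_apply, Finsupp.sum_option_index c (fun o x => dot v x * (o.elim 1 l : ℂ))
    (by intro o; rw [map_zero, zero_mul]) (by intro o x y; rw [map_add, add_mul])]
  simp

/-- The relations between the products `v_i l_s` and `v_i` have, up to trivial ones, a common finite
support. -/
theorem exists_support (v : Fin N → ℂ) (l : ι → ℂ) (hl : ∀ i, IsAlgebraic ℚ (Complex.exp (l i)))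
    (hli : LinearIndependent ℚ l) :
    ∃ F : Finset (Option ι), ∀ c : Option ι →₀ (Fin N → ℚ),
      ev v (fun o : Option ι => (o.elim 1 l : ℂ)) c = 0 → ∀ o ∉ F, dot v (c o) = 0 := by
  classical
  obtain ⟨E, -, hE⟩ := gen_logs v 1 l hl hli
  have key : ∀ c : Option ι →₀ (Fin N → ℚ), ev v (fun o : Option ι => (o.elim 1 l : ℂ)) c = 0 →
      (∀ s ∈ E, c (some s) = 0) → ∀ o, dot v (c o) = 0 := by
    intro c hc0 hg'
    obtain ⟨h1, h2⟩ := hE (lp (c none)) (c.some.mapRange lp lp_zero) (lp_deg _)
      (fun s m hm i => lp_deg (c (some s)) m (by simpa using hm) i)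
      (fun s hs => by
        rw [Finsupp.mapRange_apply, Finsupp.some_apply, hg' s hs, lp_zero]) (by
        rw [Finsupp.sum_mapRange_index (by intro i; rw [map_zero, zero_mul])]
        rw [ev_option] at hc0
        rw [← hc0, lp_eval]
        congr 1
        refine Finsupp.sum_congr fun s _ => ?_
        rw [lp_eval])
    intro o
    cases o with
    | none => rw [← lp_eval]; exact h1
    | some s =>
      have := h2 s
      rw [Finsupp.mapRange_apply, Finsupp.some_apply, lp_eval] at this
      exact this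
  obtain ⟨F, hF⟩ := common_support (A := LinearMap.ker (ev v (fun o : Option ι => (o.elim 1 l : ℂ))))
    (B := E → Fin N → ℚ) ((Finsupp.mapRange.linearMap (dot v)) ∘ₗ Submodule.subtype _)
    ((LinearMap.pi fun s : E => Finsupp.lapply (some (s : ι))) ∘ₗ Submodule.subtype _) (by
      rintro ⟨c, hc⟩ hg
      rw [LinearMap.mem_ker] at hg ⊢
      ext o
      exact key c hc (fun s hs => congrFun hg ⟨s, hs⟩) o)
  exact ⟨F, fun c hc o ho => hF ⟨c, hc⟩ o ho⟩

/-- Rational relations between finitely many numbers are given by integral equations. -/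
theorem equations {κ : Type} [Fintype κ] (f : (κ → ℚ) →ₗ[ℚ] ℂ) :
    ∃ (m : ℕ) (A : Fin m → κ → ℤ), ∀ x : κ → ℚ, f x = 0 ↔ ∀ j, ∑ k, (A j k : ℚ) * x k = 0 := by
  classical
  let R := LinearMap.range f
  have : Module.Finite ℚ R := inferInstance
  let b := Module.finBasis ℚ R
  let a : Fin (finrank ℚ R) → κ → ℚ := fun j k => b.repr (f.rangeRestrict (Pi.single k 1)) j
  have ha : ∀ (x : κ → ℚ) j, b.repr (f.rangeRestrict x) j = ∑ k, a j k * x k := by
    intro x j
    have h1 : x = ∑ k, x k • Pi.single (M := fun _ => ℚ) k 1 := by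
      funext k
      simp [Finset.sum_apply, Pi.single_apply]
    conv_lhs => rw [h1]
    rw [map_sum, map_sum, Finsupp.finsetSum_apply]
    refine Finset.sum_congr rfl fun k _ => ?_
    rw [map_smul, map_smul, Finsupp.smul_apply, smul_eq_mul, mul_comm]
  obtain ⟨d, hd⟩ := IsLocalization.exist_integer_multiples_of_finite (nonZeroDivisors ℤ)
    (fun q : Fin (finrank ℚ R) × κ => a q.1 q.2)
  have hd0 : ((d : ℤ) : ℚ) ≠ 0 := by
    exact_mod_cast nonZeroDivisors.ne_zero d.2
  choose z hz using hd
  refine ⟨finrank ℚ R, fun j k => z (j, k), fun x => ?_⟩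
  have hz' : ∀ j k, (z (j, k) : ℚ) = (d : ℤ) * a j k := by
    intro j k
    have := hz (j, k)
    rw [zsmul_eq_mul] at this
    simpa using this
  have h2 : ∀ j, ∑ k, (z (j, k) : ℚ) * x k = (d : ℤ) * b.repr (f.rangeRestrict x) j := by
    intro j
    rw [ha, Finset.mul_sum]
    refine Finset.sum_congr rfl fun k _ => ?_
    rw [hz']
    ring
  constructor
  · intro h j
    have h3 : f.rangeRestrict x = 0 := Subtype.ext h
    rw [h2, h3]
    simp
  · intro h
    have h3 : b.repr (f.rangeRestrict x) = 0 := by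
      ext j
      have := h j
      rw [h2] at this
      exact (mul_eq_zero.1 this).resolve_left hd0
    have h4 : f.rangeRestrict x = 0 := by
      have := b.repr.injective (h3.trans (map_zero _).symm)
      exact this
    exact congrArg Subtype.val h4

end Pool.Agent.X231.DP
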